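import Pool.Agent.W280.PE.Affine4

set_option autoImplicit false

open Polynomial Pool.Agent.W432.PC

namespace Pool.Agent.Results.MP_5e5ff1_ag.RankFourPrimeDenominators

/-- Rank four systems on the thrice punctured line with one accessory parameter (spectral type
`1111, 1111, 22`) and exponents of prime denominator.

Let `∇ = d/dt - (b / t + c / (t - 1))` be a system of rank four over a domain `R` of finite type
over `ℤ`, of characteristic zero. Let its exponents be `e 0 l / N` at `0`, `e 1 l / N` at `1` and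
`e 2 l / N` at infinity (the eigenvalues of `b`, of `c` and of `-(b + c)`). At one of the three
points, `j`, let the exponents be congruent in pairs: `e j 0 ≡ e j 1`, `e j 2 ≡ e j 3` modulo `N`.
Assume that the differences of the exponents at each point are prime to `N` or divisible by `N`,
that all the sums `e 0 i₀ + e 1 i₁ + e 2 i₂` are prime to `N`, and that so are all the sums of
two such triples with `i₀ ≠ i₀'`, `i₁ ≠ i₁'`, `i₂ ≠ i₂'` whose `j`-th indices belong to the two
different pairs. (If `N` is a prime number: no sum of three exponents, one at each point, is an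
integer, and no sum of six exponents, two different ones at each point, from different pairs at
the special point, is an integer.) The accessory parameter is arbitrary.
Then there is a residue class modulo `N` such that for all large primes `p` in the class the
`p`-curvature of `∇` is nonzero at every closed point of `Spec R` of residue characteristic `p`.
In particular the `p`-curvatures do not vanish on a dense open subset of `Spec R`. -/
theorem result {R : Type*} [CommRing R] [IsDomain R] [CharZero R] [Algebra.FiniteType ℤ R]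
    (b c : Matrix (Fin 4) (Fin 4) R) (N : ℕ) (hN : 1 < N) (e : Fin 3 → Fin 4 → ℤ)
    (he0 : HasExponents b (fun l => (e 0 l : ℚ) / N))
    (he1 : HasExponents c (fun l => (e 1 l : ℚ) / N))
    (he2 : HasExponents (b + c) (fun l => -(e 2 l : ℚ) / N))
    (j : Fin 3) (hj0 : (N : ℤ) ∣ e j 0 - e j 1) (hj1 : (N : ℤ) ∣ e j 2 - e j 3)
    (h1 : ∀ i l l', IsCoprime (e i l - e i l') (N : ℤ) ∨ (N : ℤ) ∣ e i l - e i l')
    (h2 : ∀ κ : Fin 3 → Fin 4, IsCoprime (∑ i, e i (κ i)) (N : ℤ))
    (h3 : ∀ κ κ' : Fin 3 → Fin 4, (∀ i, κ i ≠ κ' i) → κ j < 2 → 2 ≤ κ' j →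
      IsCoprime (∑ i, e i (κ i) + ∑ i, e i (κ' i)) (N : ℤ)) :
    (∃ a : ℤ, IsCoprime a (N : ℤ) ∧ ∃ P₀ : ℕ, ∀ p : ℕ, p.Prime → P₀ < p → (N : ℤ) ∣ a * p + 1 →
      ∀ (𝔪 : Ideal R) [𝔪.IsMaximal], (p : R) ∈ 𝔪 → ¬ PCurvZeroAt ![0, 1] ![b, c] 𝔪) ∧
    ¬ CondII (![0, 1] : Fin 2 → R) ![b, c] := by
  have hα : ∀ i j : Fin 2, i ≠ j → IsUnit ((![0, 1] : Fin 2 → R) i - ![0, 1] j) := by
    intro i j hij
    fin_cases i <;> fin_cases j
    · exact absurd rfl hij
    · simp
    · simp
    · exact absurd rfl hij
  obtain ⟨a, ha, P₀, hP⟩ := Pool.Agent.W280.PE.affine4 ![0, 1] hα ![b, c] N hN e he0 he1 he2 j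
    hj0 hj1 h1 h2 h3
  exact ⟨⟨a, ha, P₀, hP⟩, not_condII_of _ _ N (by omega) a ha
    ⟨1, one_ne_zero, P₀, fun p hp hpP hap 𝔪 _ hpm _ => hP p hp hpP hap 𝔪 hpm⟩⟩

end Pool.Agent.Results.MP_5e5ff1_ag.RankFourPrimeDenominators
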